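import Mathlib

set_option autoImplicit false

/-! # The abstract budget argument for MP_052a41_an -/

namespace NoLq

section Game

variable {P U : Type*} [PartialOrder P] (b : U → ℝ) (F : P → U → ℝ) (D : P → P)

/-- The comparison between the states `u` and `u'` for the closed set `Γ`, with error `δ`. -/
def SC (Γ : P) (δ : ℝ) (u u' : U) : Prop :=
  min (F Γ u + (b u' - b u)) (F (D Γ) u) - δ ≤ F Γ u' ∧ F (D Γ) u - δ ≤ F (D Γ) u'

omit [PartialOrder P] in
theorem SC.mono {Γ : P} {δ δ' : ℝ} {u u' : U} (h : SC b F D Γ δ u u') (hδ : δ ≤ δ') :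
    SC b F D Γ δ' u u' := by
  obtain ⟨h1, h2⟩ := h
  exact ⟨by linarith, by linarith⟩

omit [PartialOrder P] in
theorem SC.trans {Γ : P} {δ₁ δ₂ : ℝ} {u u' u'' : U} (h : SC b F D Γ δ₁ u u')
    (h' : SC b F D Γ δ₂ u' u'') (hb : b u' ≤ b u'') :
    SC b F D Γ (δ₁ + δ₂) u u'' := by
  obtain ⟨a1, a2⟩ := h
  obtain ⟨c1, c2⟩ := h'
  refine ⟨?_, by linarith⟩
  have e1 : min (F Γ u + (b u'' - b u)) (F (D Γ) u) - δ₁ ≤
      min (F Γ u' + (b u'' - b u')) (F (D Γ) u') := by
    refine le_min ?_ ?_
    · rcases le_total (F Γ u + (b u' - b u)) (F (D Γ) u) with hc | hc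
      · rw [min_eq_left hc] at a1
        have := min_le_left (F Γ u + (b u'' - b u)) (F (D Γ) u)
        linarith
      · rw [min_eq_right hc] at a1
        have := min_le_right (F Γ u + (b u'' - b u)) (F (D Γ) u)
        linarith
    · have := min_le_right (F Γ u + (b u'' - b u)) (F (D Γ) u)
      linarith
  linarith

/-- The reaching property. -/
def R (top : P) (Z : P) : Prop :=
  ∀ (𝒜 : Finset P) (u : U) (L Q δ : ℝ), 0 < Q → 0 < δ → L ≤ F top u → L + Q ≤ F Z u →
    ∃ u', |b u' - b u - Q| ≤ δ ∧ b u ≤ b u' ∧ L + Q - δ ≤ F top u' ∧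
      ∀ Γ ∈ 𝒜, SC b F D Γ δ u u'

/-- The one step hypothesis. -/
def Step : Prop :=
  ∀ (𝒜 : Finset P) (u : U) (t δ : ℝ), 0 < t → 0 < δ →
    ∃ u', b u' = b u + t ∧ ∀ Γ ∈ 𝒜, SC b F D Γ δ u u'

variable {b F D}

theorem R_top {top : P} (hD : ∀ x, D x ≤ x) (hF : ∀ x y u, x ≤ y → F y u ≤ F x u)
    (hstep : Step b F D) : R b F D top top := by
  classical
  intro 𝒜 u L Q δ hQ hδ hL hLQ
  obtain ⟨u', hb, hu'⟩ := hstep (insert top 𝒜) u Q δ hQ hδ
  refine ⟨u', ?_, ?_, ?_, fun Γ hΓ => hu' Γ (Finset.mem_insert_of_mem hΓ)⟩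
  · rw [hb]; simp [hδ.le]
  · rw [hb]; linarith
  · have h1 := (hu' top (Finset.mem_insert_self _ _)).1
    have h2 := hF (D top) top u (hD top)
    have h3 : F top u ≤ min (F top u + (b u' - b u)) (F (D top) u) := by
      refine le_min ?_ h2
      rw [hb]; linarith
    linarith

theorem R_D {top : P} (hD : ∀ x, D x ≤ x) (htop : ∀ x, x ≤ top)
    (hF : ∀ x y u, x ≤ y → F y u ≤ F x u)
    (hstep : Step b F D) {Z : P} (hR : R b F D top Z) : R b F D top (D Z) := by
  classical
  intro 𝒜 u L Q δ hQ hδ hL hLQ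
  obtain ⟨m, hm⟩ := exists_nat_gt (2 * Q / δ)
  have hm0 : (0 : ℝ) < m := lt_of_le_of_lt (by positivity) hm
  set h : ℝ := Q / m with hh
  have hh0 : 0 < h := div_pos hQ hm0
  have hmh : (m : ℝ) * h = Q := by rw [hh]; field_simp
  have hhδ : h ≤ δ / 2 := by
    rw [hh, div_le_iff₀ hm0]
    rw [div_lt_iff₀ hδ] at hm
    linarith
  set d : ℝ := δ / (2 * (2 * m + 1)) with hd
  have hd0 : 0 < d := by positivity
  have hdm : (2 * m + 1) * d = δ / 2 := by rw [hd]; field_simp
  have key : ∀ i : ℕ, i ≤ m → ∃ v : U, b u ≤ b v ∧ |b v - b u - (i + 1) * h| ≤ (i + 1) * d ∧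
      L + i * h - (2 * i + 1) * d ≤ F top v ∧
      L + min ((i + 1) * h) Q - (2 * i + 1) * d ≤ F Z v ∧
      L + Q - (2 * i + 1) * d ≤ F (D Z) v ∧
      ∀ Γ ∈ 𝒜, SC b F D Γ ((2 * i + 1) * d) u v := by
    intro i
    induction i with
    | zero =>
      intro _
      obtain ⟨v, hb, hv⟩ := hstep (insert top (insert Z 𝒜)) u h d hh0 hd0
      refine ⟨v, by rw [hb]; linarith, ?_, ?_, ?_, ?_, ?_⟩
      · rw [hb]
        have : b u + h - b u - ((0 : ℕ) + 1) * h = 0 := by push_cast; ring
        rw [this, abs_zero]; push_cast; linarith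
      · have h1 := (hv top (Finset.mem_insert_self _ _)).1
        have h2 := hF (D top) top u (hD top)
        have h3 : F top u ≤ min (F top u + (b v - b u)) (F (D top) u) := by
          refine le_min ?_ h2
          rw [hb]; linarith
        push_cast
        linarith
      · have h1 := (hv Z (by simp)).1
        have h2 : L ≤ F Z u := hL.trans (hF _ _ _ (htop _))
        have h3 : L + min h Q ≤ min (F Z u + (b v - b u)) (F (D Z) u) := by
          refine le_min ?_ ?_
          · rw [hb]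
            have := min_le_left h Q
            linarith
          · have := min_le_right h Q
            linarith
        push_cast
        simp only [zero_add, one_mul, mul_zero]
        linarith
      · have h1 := (hv Z (by simp)).2
        push_cast
        linarith
      · intro Γ hΓ
        have := hv Γ (by simp [hΓ])
        simpa using this
    | succ i ih =>
      intro him
      obtain ⟨v, hbv, hbv', htv, hSv, hDv, hcv⟩ := ih (by omega)
      have hi1 : ((i : ℝ) + 1) * h ≤ Q := by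
        rw [← hmh]
        have : ((i : ℝ) + 1) ≤ m := by exact_mod_cast him
        exact mul_le_mul_of_nonneg_right this hh0.le
      have hmin : min (((i : ℝ) + 1) * h) Q = ((i : ℝ) + 1) * h := min_eq_left hi1
      obtain ⟨w, hw1, hw2, hw3, hw4⟩ := hR (insert Z 𝒜) v (L + i * h - (2 * i + 1) * d) h d
        hh0 hd0 htv (by rw [hmin] at hSv; linarith)
      have hwS := hw4 Z (Finset.mem_insert_self _ _)
      refine ⟨w, hbv.trans hw2, ?_, ?_, ?_, ?_, ?_⟩
      · push_cast
        rw [abs_le] at hbv' hw1 ⊢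
        constructor <;> linarith [hbv'.1, hbv'.2, hw1.1, hw1.2]
      · push_cast
        linarith
      · have h1 := hwS.1
        have hw1' := (abs_le.1 hw1).1
        have h3 : L + min (((i : ℝ) + 1 + 1) * h) Q - (2 * i + 1) * d - d ≤
            min (F Z v + (b w - b v)) (F (D Z) v) := by
          refine le_min ?_ ?_
          · have := min_le_left (((i : ℝ) + 1 + 1) * h) Q
            rw [hmin] at hSv
            linarith
          · have := min_le_right (((i : ℝ) + 1 + 1) * h) Q
            linarith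
        push_cast
        linarith
      · have h1 := hwS.2
        push_cast
        linarith
      · intro Γ hΓ
        have h1 := (hcv Γ hΓ).trans b F D (hw4 Γ (Finset.mem_insert_of_mem hΓ)) hw2
        refine h1.mono b F D ?_
        push_cast
        linarith
  obtain ⟨v, hbv, hbv', htv, hSv, hDv, hcv⟩ := key m le_rfl
  have e1 : ((m : ℝ) + 1) * d ≤ δ / 2 := by
    rw [← hdm]
    exact mul_le_mul_of_nonneg_right (by linarith) hd0.le
  refine ⟨v, ?_, hbv, ?_, fun Γ hΓ => (hcv Γ hΓ).mono b F D (by linarith)⟩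
  · have : ((m : ℝ) + 1) * h = Q + h := by rw [add_mul, hmh, one_mul]
    rw [this] at hbv'
    rw [abs_le] at hbv' ⊢
    constructor <;> linarith [hbv'.1, hbv'.2]
  · rw [hmh] at htv
    linarith

omit [PartialOrder P] in
theorem R_chain {top : P} (c : Set P) (z : P)
    (hz : ∀ u a, a < F z u → ∃ s ∈ c, a ≤ F s u) (hR : ∀ s ∈ c, R b F D top s) :
    R b F D top z := by
  intro 𝒜 u L Q δ hQ hδ hL hLQ
  set d : ℝ := min (δ / 2) (Q / 2) with hd
  have hd0 : 0 < d := by positivity
  have hd1 : d ≤ δ / 2 := min_le_left _ _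
  have hd2 : d ≤ Q / 2 := min_le_right _ _
  obtain ⟨s, hs, hs'⟩ := hz u (L + Q - d) (by linarith)
  obtain ⟨u', h1, h2, h3, h4⟩ := hR s hs 𝒜 u L (Q - d) (δ / 2) (by linarith) (by linarith) hL
    (by linarith)
  refine ⟨u', ?_, h2, by linarith, fun Γ hΓ => (h4 Γ hΓ).mono b F D (by linarith)⟩
  rw [abs_le] at h1 ⊢
  constructor <;> linarith [h1.1, h1.2]

/-- The abstract budget argument: there is a fixed point `m` of the derivation with the reaching
property. -/
theorem game {top : P} (hD : ∀ x, D x ≤ x) (htop : ∀ x, x ≤ top)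
    (hF : ∀ x y u, x ≤ y → F y u ≤ F x u)
    (hstep : Step b F D)
    (hchain : ∀ c : Set P, IsChain (· ≤ ·) c → c.Nonempty →
      ∃ z, (∀ s ∈ c, z ≤ s) ∧ ∀ u a, a < F z u → ∃ s ∈ c, a ≤ F s u) :
    ∃ m : P, D m = m ∧ R b F D top m := by
  have hz := zorn_le₀ (α := Pᵒᵈ) {x : Pᵒᵈ | R b F D top (OrderDual.ofDual x)} (by
    intro c hc hch
    rcases c.eq_empty_or_nonempty with rfl | hne
    · exact ⟨OrderDual.toDual top, R_top hD hF hstep, by simp⟩
    · obtain ⟨z, hz1, hz2⟩ := hchain (OrderDual.toDual ⁻¹' c)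
        (by
          intro x hx y hy hxy
          rcases hch hx hy hxy with h | h
          · exact Or.inr h
          · exact Or.inl h)
        hne
      refine ⟨OrderDual.toDual z, ?_, fun s hs => hz1 _ hs⟩
      exact R_chain _ z hz2 (fun s hs => hc hs))
  obtain ⟨m, hm⟩ := hz
  refine ⟨OrderDual.ofDual m, ?_, hm.prop⟩
  have h1 : R b F D top (D (OrderDual.ofDual m)) := R_D hD htop hF hstep hm.prop
  have h2 := hm.le_of_ge (y := OrderDual.toDual (D (OrderDual.ofDual m))) h1 (hD _)
  exact le_antisymm (hD _) h2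

end Game

end NoLq
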