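import Mathlib
import Pool.Agent.Work.MP_052a41_an_helper68.Game

set_option autoImplicit false

/-! # The core of the argument for MP_052a41_an: weak* derivations and test vectors -/

namespace NoLq

open Filter Topology Set

variable {𝕜 : Type*} [RCLike 𝕜] {E : Type*} [NormedAddCommGroup E] [NormedSpace 𝕜 E]

/-- The sum functional on the dual defined by a sequence of sets of test vectors. -/
noncomputable def Psi (G : ℕ → Set E) (x : WeakDual 𝕜 E) : ℝ :=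
  ⨆ i : Finset ℕ × {f : ℕ → E // ∀ n, f n ∈ G n}, ∑ n ∈ i.1, ‖x (i.2.1 n)‖

section Psi

variable {G : ℕ → Set E} {S : ℝ} (h0 : ∀ n, (0 : E) ∈ G n)
  (h1 : ∀ (x : WeakDual 𝕜 E) (F : Finset ℕ) (f : ℕ → E), (∀ n, f n ∈ G n) →
    ∑ n ∈ F, ‖x (f n)‖ ≤ S * ‖WeakDual.toStrongDual x‖)

include h1 in
theorem Psi_bdd (x : WeakDual 𝕜 E) : BddAbove (range
    (fun i : Finset ℕ × {f : ℕ → E // ∀ n, f n ∈ G n} => ∑ n ∈ i.1, ‖x (i.2.1 n)‖)) := by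
  refine ⟨S * ‖WeakDual.toStrongDual x‖, ?_⟩
  rintro _ ⟨i, rfl⟩
  exact h1 x i.1 i.2.1 i.2.2

include h1 in
theorem le_Psi (x : WeakDual 𝕜 E) (F : Finset ℕ) (f : ℕ → E) (hf : ∀ n, f n ∈ G n) :
    ∑ n ∈ F, ‖x (f n)‖ ≤ Psi G x :=
  le_ciSup (f := fun i : Finset ℕ × {f : ℕ → E // ∀ n, f n ∈ G n} =>
    ∑ n ∈ i.1, ‖x (i.2.1 n)‖) (Psi_bdd h1 x) (F, ⟨f, hf⟩)

include h0 in
theorem Psi_le_of {x : WeakDual 𝕜 E} {a : ℝ}
    (h : ∀ (F : Finset ℕ) (f : ℕ → E), (∀ n, f n ∈ G n) → ∑ n ∈ F, ‖x (f n)‖ ≤ a) :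
    Psi G x ≤ a := by
  have : Nonempty (Finset ℕ × {f : ℕ → E // ∀ n, f n ∈ G n}) := ⟨(∅, ⟨fun _ => 0, h0⟩)⟩
  exact ciSup_le fun i => h i.1 i.2.1 i.2.2

include h0 in
theorem exists_of_lt_Psi {x : WeakDual 𝕜 E} {a : ℝ} (h : a < Psi G x) :
    ∃ (F : Finset ℕ) (f : ℕ → E), (∀ n, f n ∈ G n) ∧ a < ∑ n ∈ F, ‖x (f n)‖ := by
  by_contra hcon
  push Not at hcon
  exact absurd (Psi_le_of h0 hcon) (not_le.2 h)

include h1 in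
theorem Psi_nonneg (x : WeakDual 𝕜 E) (h0 : ∀ n, (0 : E) ∈ G n) : 0 ≤ Psi G x := by
  have := le_Psi h1 x ∅ (fun _ => 0) h0
  simpa using this

include h0 h1 in
theorem isClosed_Psi_le (a : ℝ) : IsClosed {x : WeakDual 𝕜 E | Psi G x ≤ a} := by
  have : {x : WeakDual 𝕜 E | Psi G x ≤ a} =
      ⋂ i : Finset ℕ × {f : ℕ → E // ∀ n, f n ∈ G n},
        {x : WeakDual 𝕜 E | ∑ n ∈ i.1, ‖x (i.2.1 n)‖ ≤ a} := by
    ext x
    simp only [mem_ofPred_eq, mem_iInter]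
    constructor
    · intro h i
      exact (le_Psi h1 x i.1 i.2.1 i.2.2).trans h
    · intro h
      exact Psi_le_of h0 fun F f hf => h (F, ⟨f, hf⟩)
  rw [this]
  refine isClosed_iInter fun i => isClosed_le ?_ continuous_const
  exact continuous_finsetSum _ fun n _ => (WeakDual.eval_continuous (i.2.1 n)).norm

end Psi

/-- The capped infimum of `Psi` over the points of `Γ` with prescribed values. -/
noncomputable def FF (G : ℕ → Set E) (y : ℕ → E) (T : ℝ) (Γ : Set (WeakDual 𝕜 E))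
    (u : ℕ →₀ ℝ) : ℝ :=
  sInf (insert T {t | ∃ x ∈ Γ, (∀ n, x (y n) = (u n : 𝕜)) ∧ t = Psi G x})

section FF

variable {G : ℕ → Set E} {S : ℝ} {y : ℕ → E} {T : ℝ} (h0 : ∀ n, (0 : E) ∈ G n)
  (h1 : ∀ (x : WeakDual 𝕜 E) (F : Finset ℕ) (f : ℕ → E), (∀ n, f n ∈ G n) →
    ∑ n ∈ F, ‖x (f n)‖ ≤ S * ‖WeakDual.toStrongDual x‖) (hT : 0 ≤ T)

include h0 h1 hT in
theorem FF_bdd (Γ : Set (WeakDual 𝕜 E)) (u : ℕ →₀ ℝ) :
    BddBelow (insert T {t | ∃ x ∈ Γ, (∀ n, x (y n) = (u n : 𝕜)) ∧ t = Psi G x}) := by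
  refine ⟨0, ?_⟩
  rintro t (rfl | ⟨x, _, _, rfl⟩)
  · exact hT
  · exact Psi_nonneg h1 x h0

include h0 h1 hT in
theorem FF_le_T (Γ : Set (WeakDual 𝕜 E)) (u : ℕ →₀ ℝ) : FF G y T Γ u ≤ T :=
  csInf_le (FF_bdd h0 h1 hT Γ u) (mem_insert _ _)

include h0 h1 hT in
theorem FF_le {Γ : Set (WeakDual 𝕜 E)} {u : ℕ →₀ ℝ} {x : WeakDual 𝕜 E} (hx : x ∈ Γ)
    (hu : ∀ n, x (y n) = (u n : 𝕜)) : FF G y T Γ u ≤ Psi G x :=
  csInf_le (FF_bdd h0 h1 hT Γ u) (Or.inr ⟨x, hx, hu, rfl⟩)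

theorem le_FF {Γ : Set (WeakDual 𝕜 E)} {u : ℕ →₀ ℝ} {a : ℝ} (haT : a ≤ T)
    (h : ∀ x ∈ Γ, (∀ n, x (y n) = (u n : 𝕜)) → a ≤ Psi G x) : a ≤ FF G y T Γ u := by
  refine le_csInf (insert_nonempty _ _) ?_
  rintro t (rfl | ⟨x, hx, hu, rfl⟩)
  · exact haT
  · exact h x hx hu

theorem exists_of_FF_lt {Γ : Set (WeakDual 𝕜 E)} {u : ℕ →₀ ℝ} {a : ℝ} (haT : a ≤ T)
    (h : FF G y T Γ u < a) : ∃ x ∈ Γ, (∀ n, x (y n) = (u n : 𝕜)) ∧ Psi G x < a := by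
  by_contra hcon
  push Not at hcon
  exact absurd (le_FF (G := G) (y := y) haT hcon) (not_le.2 h)

include h0 h1 hT in
theorem FF_anti {Γ Γ' : Set (WeakDual 𝕜 E)} (h : Γ ⊆ Γ') (u : ℕ →₀ ℝ) :
    FF G y T Γ' u ≤ FF G y T Γ u :=
  le_FF (FF_le_T h0 h1 hT _ _) fun _ hx hu => FF_le h0 h1 hT (h hx) hu

theorem FF_nonneg (h0 : ∀ n, (0 : E) ∈ G n)
    (h1 : ∀ (x : WeakDual 𝕜 E) (F : Finset ℕ) (f : ℕ → E), (∀ n, f n ∈ G n) →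
    ∑ n ∈ F, ‖x (f n)‖ ≤ S * ‖WeakDual.toStrongDual x‖) (hT : 0 ≤ T)
    (Γ : Set (WeakDual 𝕜 E)) (u : ℕ →₀ ℝ) : 0 ≤ FF G y T Γ u :=
  le_FF hT fun x _ _ => Psi_nonneg h1 x h0

theorem FF_empty (u : ℕ →₀ ℝ) (h0 : ∀ n, (0 : E) ∈ G n)
    (h1 : ∀ (x : WeakDual 𝕜 E) (F : Finset ℕ) (f : ℕ → E), (∀ n, f n ∈ G n) →
    ∑ n ∈ F, ‖x (f n)‖ ≤ S * ‖WeakDual.toStrongDual x‖) (hT : 0 ≤ T) :
    FF G y T (∅ : Set (WeakDual 𝕜 E)) u = T :=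
  le_antisymm (FF_le_T h0 h1 hT _ _) (le_FF le_rfl (by simp))

end FF

/-- The `ε`-derived set. -/
def Der (ε : ℝ) (Γ : Set (WeakDual 𝕜 E)) : Set (WeakDual 𝕜 E) :=
  {x | x ∈ Γ ∧ ∀ O : Set (WeakDual 𝕜 E), IsOpen O → x ∈ O →
    ∃ a ∈ Γ ∩ O, ∃ b ∈ Γ ∩ O, ε < ‖WeakDual.toStrongDual a - WeakDual.toStrongDual b‖}

theorem Der_subset (ε : ℝ) (Γ : Set (WeakDual 𝕜 E)) : Der ε Γ ⊆ Γ := fun _ hx => hx.1

theorem isClosed_Der (ε : ℝ) {Γ : Set (WeakDual 𝕜 E)} (hΓ : IsClosed Γ) :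
    IsClosed (Der ε Γ) := by
  rw [← isOpen_compl_iff, isOpen_iff_forall_mem_open]
  intro x hx
  by_cases hxΓ : x ∈ Γ
  · have : ∃ O : Set (WeakDual 𝕜 E), IsOpen O ∧ x ∈ O ∧ ∀ a ∈ Γ ∩ O, ∀ b ∈ Γ ∩ O,
        ‖WeakDual.toStrongDual a - WeakDual.toStrongDual b‖ ≤ ε := by
      by_contra hcon
      push Not at hcon
      exact hx ⟨hxΓ, hcon⟩
    obtain ⟨O, hO, hxO, hOO⟩ := this
    refine ⟨O, ?_, hO, hxO⟩
    intro z hz hzD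
    obtain ⟨a, ha, b, hb, hab⟩ := hzD.2 O hO hz
    exact absurd (hOO a ha b hb) (not_le.2 hab)
  · exact ⟨Γᶜ, fun z hz hzD => hz hzD.1, hΓ.isOpen_compl, hxΓ⟩

/-- If the dual is norm separable, the derivation strictly decreases nonempty compact sets. -/
theorem Der_ne {ε : ℝ} (hε : 0 < ε) [TopologicalSpace.SeparableSpace (StrongDual 𝕜 E)]
    {Γ : Set (WeakDual 𝕜 E)} (hΓ : IsCompact Γ) (hne : Γ.Nonempty) : Der ε Γ ≠ Γ := by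
  intro heq
  have : CompactSpace Γ := isCompact_iff_compactSpace.1 hΓ
  have : Nonempty Γ := hne.to_subtype
  set d := TopologicalSpace.denseSeq (StrongDual 𝕜 E) with hd
  set f : ℕ → Set Γ := fun i =>
    Subtype.val ⁻¹' (WeakDual.toStrongDual ⁻¹' Metric.closedBall (d i) (ε / 2)) with hf
  have hcl : ∀ i, IsClosed (f i) := fun i =>
    (WeakDual.isClosed_closedBall (d i) (ε / 2)).preimage continuous_subtype_val
  have hun : ⋃ i, f i = univ := by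
    rw [eq_univ_iff_forall]
    intro x
    obtain ⟨i, hi⟩ := (TopologicalSpace.denseRange_denseSeq (StrongDual 𝕜 E)).exists_dist_lt
      (WeakDual.toStrongDual x.1) (half_pos hε)
    exact mem_iUnion.2 ⟨i, hi.le⟩
  obtain ⟨i, ⟨x, hx⟩⟩ := nonempty_interior_of_iUnion_of_closed hcl hun
  obtain ⟨O, hO, hO'⟩ := isOpen_induced_iff.1 (isOpen_interior (s := f i))
  have hxO : x.1 ∈ O := by
    have : x ∈ Subtype.val ⁻¹' O := by rw [hO']; exact hx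
    exact this
  have hxD : x.1 ∈ Der ε Γ := by rw [heq]; exact x.2
  obtain ⟨a, ha, b, hb, hab⟩ := hxD.2 O hO hxO
  have key : ∀ a ∈ Γ ∩ O, dist (WeakDual.toStrongDual a) (d i) ≤ ε / 2 := by
    intro a ha
    have h1 : (⟨a, ha.1⟩ : Γ) ∈ Subtype.val ⁻¹' O := ha.2
    rw [hO'] at h1
    have h3 : (⟨a, ha.1⟩ : Γ) ∈ f i := interior_subset h1
    exact h3
  have h2 := dist_triangle_right (WeakDual.toStrongDual a) (WeakDual.toStrongDual b) (d i)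
  rw [dist_eq_norm] at h2
  linarith [key a ha, key b hb]

end NoLq
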