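import Mathlib
import Pool.Agent.Work.MP_052a41_an_helper68.Core

set_option autoImplicit false

/-! # The step lemma and the core theorem for MP_052a41_an -/

namespace NoLq

open Filter Topology Set

variable {𝕜 : Type*} [RCLike 𝕜] {E : Type*} [NormedAddCommGroup E] [NormedSpace 𝕜 E]

section

variable {G : ℕ → Set E} {S : ℝ} {y : ℕ → E} {T p K ε : ℝ}

theorem step_lemma (h0 : ∀ n, (0 : E) ∈ G n)
    (h1 : ∀ (x : WeakDual 𝕜 E) (F : Finset ℕ) (f : ℕ → E), (∀ n, f n ∈ G n) →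
      ∑ n ∈ F, ‖x (f n)‖ ≤ S * ‖WeakDual.toStrongDual x‖) (hT : 0 ≤ T)
    (h2 : ∀ c : ℝ, 0 < c → ∃ g : ℕ → E, (∀ n, g n ∈ G n) ∧
      ∀ (z : StrongDual 𝕜 E) (n : ℕ), ‖z‖ ≤ ε → c ≤ ‖z (y n)‖ → K * c ^ p ≤ ‖z (g n)‖)
    {Γ : Set (WeakDual 𝕜 E)} (hΓ : IsCompact Γ) (u : ℕ →₀ ℝ) {c δ : ℝ} (hc : 0 < c)
    (hδ : 0 < δ) :
    ∀ᶠ n in atTop, min (FF G y T Γ u + K * c ^ p) (FF G y T (Der ε Γ) u) - δ ≤
      FF G y T Γ (u + Finsupp.single n c) := by
  by_contra hcon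
  rw [Filter.not_eventually] at hcon
  simp only [not_le] at hcon
  set m := min (FF G y T Γ u + K * c ^ p) (FF G y T (Der ε Γ) u) - δ with hm
  have hm1 : m ≤ FF G y T Γ u + K * c ^ p - δ := by
    have := min_le_left (FF G y T Γ u + K * c ^ p) (FF G y T (Der ε Γ) u)
    linarith
  have hm2 : m ≤ FF G y T (Der ε Γ) u - δ := by
    have := min_le_right (FF G y T Γ u + K * c ^ p) (FF G y T (Der ε Γ) u)
    linarith
  have hmT : m ≤ T := by
    have := FF_le_T (y := y) h0 h1 hT (Der ε Γ) u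
    linarith
  have hex : ∀ n, ∃ x : WeakDual 𝕜 E, FF G y T Γ (u + Finsupp.single n c) < m →
      x ∈ Γ ∧ (∀ k, x (y k) = ((u + Finsupp.single n c) k : ℝ)) ∧ Psi G x < m := by
    intro n
    by_cases hn : FF G y T Γ (u + Finsupp.single n c) < m
    · obtain ⟨x, hx1, hx2, hx3⟩ := exists_of_FF_lt hmT hn
      exact ⟨x, fun _ => ⟨hx1, hx2, hx3⟩⟩
    · exact ⟨0, fun h => absurd h hn⟩
  choose x hx using hex
  set l : Filter ℕ := atTop ⊓ 𝓟 {n | FF G y T Γ (u + Finsupp.single n c) < m} with hl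
  have hlne : l.NeBot := Filter.frequently_mem_iff_neBot.1 hcon
  set 𝒰 := Ultrafilter.of l with h𝒰
  have hle : (𝒰 : Filter ℕ) ≤ l := Ultrafilter.of_le l
  have hbad : ∀ᶠ n in (𝒰 : Filter ℕ), FF G y T Γ (u + Finsupp.single n c) < m :=
    hle (mem_inf_of_right (mem_principal_self _))
  have hat : (𝒰 : Filter ℕ) ≤ atTop := hle.trans inf_le_left
  have hmem : (𝒰.map x : Filter (WeakDual 𝕜 E)) ≤ 𝓟 Γ := by
    rw [Filter.le_principal_iff]
    exact hbad.mono fun n hn => (hx n hn).1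
  obtain ⟨z, hzΓ, hz⟩ := hΓ.ultrafilter_le_nhds (𝒰.map x) hmem
  have hzt : Tendsto x 𝒰 (𝓝 z) := hz
  have hval : ∀ k, z (y k) = ((u k : ℝ) : 𝕜) := by
    intro k
    have t1 : Tendsto (fun n => x n (y k)) 𝒰 (𝓝 (z (y k))) :=
      ((WeakDual.eval_continuous (y k)).tendsto z).comp hzt
    have t2 : ∀ᶠ n in (𝒰 : Filter ℕ), x n (y k) = ((u k : ℝ) : 𝕜) := by
      filter_upwards [hbad, hat (eventually_gt_atTop k)] with n hn hkn
      rw [(hx n hn).2.1 k]
      simp [hkn.ne']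
    exact tendsto_nhds_unique t1 (tendsto_const_nhds.congr' (t2.mono fun _ h => h.symm))
  have hΨz : Psi G z ≤ m := by
    have : z ∈ {x : WeakDual 𝕜 E | Psi G x ≤ m} :=
      (isClosed_Psi_le h0 h1 m).mem_of_tendsto hzt (hbad.mono fun n hn => (hx n hn).2.2.le)
    exact this
  by_cases hzD : z ∈ Der ε Γ
  · have := FF_le (T := T) h0 h1 hT hzD hval
    linarith
  · have : ∃ O : Set (WeakDual 𝕜 E), IsOpen O ∧ z ∈ O ∧ ∀ a ∈ Γ ∩ O, ∀ b ∈ Γ ∩ O,
        ‖WeakDual.toStrongDual a - WeakDual.toStrongDual b‖ ≤ ε := by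
      by_contra hcon'
      push Not at hcon'
      exact hzD ⟨hzΓ, hcon'⟩
    obtain ⟨O, hO, hzO, hOO⟩ := this
    have hFz := FF_le (T := T) h0 h1 hT hzΓ hval
    obtain ⟨S0, f, hf, hS0⟩ := exists_of_lt_Psi h0 (show FF G y T Γ u - δ / 4 < Psi G z by linarith)
    obtain ⟨g, hg, hg2⟩ := h2 c hc
    -- smallness of `z (g n)`
    have hsmall : ∀ᶠ n in atTop, ‖z (g n)‖ < δ / 4 := by
      have hsum : Summable fun n => ‖z (g n)‖ :=
        summable_of_sum_le (fun n => norm_nonneg _) (fun F => h1 z F g hg)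
      exact (tendsto_order.1 hsum.tendsto_atTop_zero).2 _ (by linarith)
    have hlsc : ∀ᶠ n in (𝒰 : Filter ℕ), FF G y T Γ u - δ / 4 < ∑ k ∈ S0, ‖x n (f k)‖ := by
      have hcont : Continuous fun w : WeakDual 𝕜 E => ∑ k ∈ S0, ‖w (f k)‖ :=
        continuous_finsetSum _ fun k _ => (WeakDual.eval_continuous (f k)).norm
      exact (tendsto_order.1 ((hcont.tendsto z).comp hzt)).1 _ hS0
    have hOev : ∀ᶠ n in (𝒰 : Filter ℕ), x n ∈ O := hzt (hO.mem_nhds hzO)
    have hnS : ∀ᶠ n in atTop, n ∉ S0 := by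
      filter_upwards [eventually_gt_atTop (S0.sup id)] with n hn hnS
      exact absurd (Finset.le_sup (f := id) hnS) (not_le.2 hn)
    obtain ⟨n, hn1, hn2, hn3, hn4, hn5⟩ :=
      (hbad.and (hlsc.and (hOev.and ((hsmall.filter_mono hat).and (hnS.filter_mono hat))))).exists
    obtain ⟨hxΓ, hxv, hxΨ⟩ := hx n hn1
    have hdist := hOO _ ⟨hxΓ, hn3⟩ _ ⟨hzΓ, hzO⟩
    have hval' : (WeakDual.toStrongDual (x n) - WeakDual.toStrongDual z) (y n) = (c : 𝕜) := by
      rw [_root_.sub_apply, WeakDual.toStrongDual_apply, WeakDual.toStrongDual_apply,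
        hxv n, hval n]
      simp
    have hge := hg2 (WeakDual.toStrongDual (x n) - WeakDual.toStrongDual z) n hdist
      (by rw [hval']; simp [abs_of_pos hc])
    have hge2 : K * c ^ p ≤ ‖x n (g n)‖ + ‖z (g n)‖ := by
      refine hge.trans ?_
      rw [_root_.sub_apply, WeakDual.toStrongDual_apply, WeakDual.toStrongDual_apply]
      exact norm_sub_le _ _
    classical
    have hle2 := le_Psi h1 (x n) (insert n S0) (fun k => if k = n then g k else f k) (by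
      intro k
      by_cases hk : k = n
      · simp only [hk, if_true]; exact hg n
      · simp only [hk, if_false]; exact hf k)
    rw [Finset.sum_insert hn5] at hle2
    have heq : ∑ k ∈ S0, ‖x n (if k = n then g k else f k)‖ = ∑ k ∈ S0, ‖x n (f k)‖ := by
      refine Finset.sum_congr rfl fun k hk => ?_
      have : k ≠ n := fun h => hn5 (h ▸ hk)
      rw [if_neg this]
    simp only [if_true] at hle2
    rw [heq] at hle2
    linarith

end

/-- **Core theorem.** A normed space with a sequence `y` and sets `G n` of test vectors satisfying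
the three axioms below has nonseparable dual. -/
theorem core (y : ℕ → E) (G : ℕ → Set E) (S Rad p : ℝ) (hp : 1 < p) (hS : 0 ≤ S) (hRad : 0 ≤ Rad)
    (h0 : ∀ n, (0 : E) ∈ G n)
    (h1 : ∀ (x : StrongDual 𝕜 E) (F : Finset ℕ) (f : ℕ → E), (∀ n, f n ∈ G n) →
      ∑ n ∈ F, ‖x (f n)‖ ≤ S * ‖x‖)
    (h2 : ∀ K : ℝ, 0 < K → ∃ ε : ℝ, 0 < ε ∧ ∀ c : ℝ, 0 < c → ∃ g : ℕ → E, (∀ n, g n ∈ G n) ∧
      ∀ (z : StrongDual 𝕜 E) (n : ℕ), ‖z‖ ≤ ε → c ≤ ‖z (y n)‖ → K * c ^ p ≤ ‖z (g n)‖)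
    (h3 : ∀ u : ℕ →₀ ℝ, u.sum (fun _ r => |r| ^ p) ≤ 1 → ∃ x : StrongDual 𝕜 E, ‖x‖ ≤ Rad ∧
      ∀ n, x (y n) = ((u n : ℝ) : 𝕜)) :
    ¬ TopologicalSpace.SeparableSpace (StrongDual 𝕜 E) := by
  intro hsep
  have h1' : ∀ (x : WeakDual 𝕜 E) (F : Finset ℕ) (f : ℕ → E), (∀ n, f n ∈ G n) →
      ∑ n ∈ F, ‖x (f n)‖ ≤ S * ‖WeakDual.toStrongDual x‖ := fun x F f hf =>
    h1 (WeakDual.toStrongDual x) F f hf
  have hp0 : 0 < p := by linarith
  set T : ℝ := S * Rad + 1 with hTdef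
  have hT1 : 1 ≤ T := by
    have : 0 ≤ S * Rad := mul_nonneg hS hRad
    linarith
  have hT : 0 ≤ T := by linarith
  set K : ℝ := T + 1 with hK
  have hK0 : 0 < K := by linarith
  obtain ⟨ε, hε, h2'⟩ := h2 K hK0
  set ball : Set (WeakDual 𝕜 E) := WeakDual.toStrongDual ⁻¹' Metric.closedBall 0 Rad with hball
  have hbc : IsCompact ball := WeakDual.isCompact_closedBall 0 Rad
  have hbcl : IsClosed ball := hbc.isClosed
  -- the partially ordered set of closed subsets of the ball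
  let P := {Γ : Set (WeakDual 𝕜 E) // IsClosed Γ ∧ Γ ⊆ ball}
  let b : (ℕ →₀ ℝ) → ℝ := fun u => K * u.sum (fun _ r => |r| ^ p)
  let F : P → (ℕ →₀ ℝ) → ℝ := fun Γ u => FF G y T Γ.1 u
  let D : P → P := fun Γ => ⟨Der ε Γ.1, isClosed_Der ε Γ.2.1, (Der_subset ε Γ.1).trans Γ.2.2⟩
  have hcpt : ∀ Γ : P, IsCompact Γ.1 := fun Γ => hbc.of_isClosed_subset Γ.2.1 Γ.2.2
  let top : P := ⟨ball, hbcl, le_rfl⟩
  have hD : ∀ x : P, D x ≤ x := fun x => Der_subset ε x.1
  have htop : ∀ x : P, x ≤ top := fun x => x.2.2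
  have hF : ∀ (x y : P) (u : ℕ →₀ ℝ), x ≤ y → F y u ≤ F x u := fun x y u h =>
    FF_anti h0 h1' hT h u
  have hstep : Step b F D := by
    intro 𝒜 u t δ ht hδ
    set c : ℝ := (t / K) ^ (1 / p) with hc
    have hc0 : 0 < c := by positivity
    have hcp : K * c ^ p = t := by
      rw [hc, ← Real.rpow_mul (by positivity), one_div_mul_cancel hp0.ne', Real.rpow_one]
      field_simp
    have hev : ∀ Γ ∈ 𝒜, ∀ᶠ n in atTop,
        (min (F Γ u + t) (F (D Γ) u) - δ ≤ F Γ (u + Finsupp.single n c) ∧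
          F (D Γ) u - δ ≤ F (D Γ) (u + Finsupp.single n c)) := by
      intro Γ _
      have e1 := step_lemma (p := p) h0 h1' hT h2' (hcpt Γ) u hc0 hδ
      have e2 := step_lemma (p := p) h0 h1' hT h2' (hcpt (D Γ)) u hc0 hδ
      rw [hcp] at e1 e2
      filter_upwards [e1, e2] with n hn1 hn2
      refine ⟨hn1, ?_⟩
      have h3 : F (D Γ) u ≤ min (FF G y T (D Γ).1 u + t) (FF G y T (Der ε (D Γ).1) u) := by
        refine le_min ?_ ?_
        · change FF G y T (D Γ).1 u ≤ _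
          linarith
        · exact hF (D (D Γ)) (D Γ) u (hD _)
      have : F (D Γ) (u + Finsupp.single n c) = FF G y T (D Γ).1 (u + Finsupp.single n c) := rfl
      rw [this]
      linarith
    have hev2 : ∀ᶠ n in atTop, ∀ Γ ∈ 𝒜,
        (min (F Γ u + t) (F (D Γ) u) - δ ≤ F Γ (u + Finsupp.single n c) ∧
          F (D Γ) u - δ ≤ F (D Γ) (u + Finsupp.single n c)) := by
      rw [Filter.eventually_all_finset]
      exact hev
    have hev3 : ∀ᶠ n in atTop, n ∉ u.support := by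
      filter_upwards [eventually_gt_atTop (u.support.sup id)] with n hn hnS
      exact absurd (Finset.le_sup (f := id) hnS) (not_le.2 hn)
    obtain ⟨n, hn1, hn2⟩ := (hev2.and hev3).exists
    have hb : b (u + Finsupp.single n c) = b u + t := by
      change K * (u + Finsupp.single n c).sum (fun _ r => |r| ^ p) =
        K * u.sum (fun _ r => |r| ^ p) + t
      rw [Finsupp.sum_add_index_of_disjoint, Finsupp.sum_single_index, mul_add, abs_of_pos hc0, hcp]
      · simp [hp0.ne']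
      · rw [Finset.disjoint_iff_ne]
        intro a ha k hk
        rintro rfl
        have : a = n := by
          have := Finsupp.support_single_subset hk
          simpa using this
        exact hn2 (this ▸ ha)
    refine ⟨u + Finsupp.single n c, hb, fun Γ hΓ => ?_⟩
    refine ⟨?_, (hn1 Γ hΓ).2⟩
    rw [hb]
    have : b u + t - b u = t := by ring
    rw [this]
    exact (hn1 Γ hΓ).1
  have hchain : ∀ c : Set P, IsChain (· ≤ ·) c → c.Nonempty →
      ∃ z : P, (∀ s ∈ c, z ≤ s) ∧ ∀ u a, a < F z u → ∃ s ∈ c, a ≤ F s u := by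
    intro c hc hne
    obtain ⟨s0, hs0⟩ := hne
    refine ⟨⟨⋂ s ∈ c, s.1, isClosed_biInter fun s _ => s.2.1,
      (biInter_subset_of_mem hs0).trans s0.2.2⟩, fun s hs => biInter_subset_of_mem hs, ?_⟩
    intro u a ha
    by_contra hcon
    push Not at hcon
    have haT : a ≤ T := ha.le.trans (FF_le_T h0 h1' hT _ _)
    let W : c → Set (WeakDual 𝕜 E) := fun s =>
      s.1.1 ∩ {x | (∀ n, x (y n) = ((u n : ℝ) : 𝕜)) ∧ Psi G x ≤ a}
    have hne' : Nonempty c := ⟨⟨s0, hs0⟩⟩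
    have hvc : IsClosed {x : WeakDual 𝕜 E | (∀ n, x (y n) = ((u n : ℝ) : 𝕜)) ∧ Psi G x ≤ a} := by
      have e1 : {x : WeakDual 𝕜 E | (∀ n, x (y n) = ((u n : ℝ) : 𝕜)) ∧ Psi G x ≤ a} =
          (⋂ n, {x : WeakDual 𝕜 E | x (y n) = ((u n : ℝ) : 𝕜)}) ∩ {x | Psi G x ≤ a} := by
        ext x; simp [mem_iInter]
      rw [e1]
      exact (isClosed_iInter fun n => isClosed_eq (WeakDual.eval_continuous _)
        continuous_const).inter (isClosed_Psi_le h0 h1' a)
    have hW : (⋂ s, W s).Nonempty := by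
      refine IsCompact.nonempty_iInter_of_directed_nonempty_isCompact_isClosed W ?_ ?_ ?_ ?_
      · rintro ⟨s, hs⟩ ⟨t, ht⟩
        rcases hc.total hs ht with h | h
        · exact ⟨⟨s, hs⟩, le_rfl, fun x hx => ⟨h hx.1, hx.2⟩⟩
        · exact ⟨⟨t, ht⟩, fun x hx => ⟨h hx.1, hx.2⟩, le_rfl⟩
      · rintro ⟨s, hs⟩
        obtain ⟨x, hx1, hx2, hx3⟩ := exists_of_FF_lt haT (hcon s hs)
        exact ⟨x, hx1, hx2, hx3.le⟩
      · rintro ⟨s, hs⟩
        exact (hcpt s).inter_right hvc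
      · rintro ⟨s, hs⟩
        exact s.2.1.inter hvc
    obtain ⟨x, hx⟩ := hW
    rw [mem_iInter] at hx
    have hx0 := hx ⟨s0, hs0⟩
    have hxz : x ∈ ⋂ s ∈ c, s.1 := by
      simp only [mem_iInter]
      intro s hs
      exact (hx ⟨s, hs⟩).1
    have : FF G y T (⋂ s ∈ c, s.1) u ≤ Psi G x := FF_le h0 h1' hT hxz hx0.2.1
    have h5 := hx0.2.2
    have h6 : a < FF G y T (⋂ s ∈ c, s.1) u := ha
    linarith
  obtain ⟨m, hm1, hm2⟩ := game (top := top) hD htop hF hstep hchain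
  have hmempty : m.1 = ∅ := by
    by_contra hne
    have h5 : Der ε m.1 = m.1 := congrArg Subtype.val hm1
    exact Der_ne hε (hcpt m) (nonempty_iff_ne_empty.2 hne) h5
  have hFm : F m 0 = T := by
    change FF G y T m.1 0 = T
    rw [hmempty]
    exact FF_empty 0 h0 h1' hT
  obtain ⟨u, hu1, hu2, hu3, -⟩ := hm2 ∅ 0 0 T (1 / 2) (by linarith) (by norm_num)
    (FF_nonneg h0 h1' hT _ _) (by rw [hFm]; linarith)
  have hb0 : b 0 = 0 := by
    change K * (0 : ℕ →₀ ℝ).sum (fun _ r => |r| ^ p) = 0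
    simp
  have hβ : u.sum (fun _ r => |r| ^ p) ≤ 1 := by
    rw [hb0, abs_le] at hu1
    have h5 : K * u.sum (fun _ r => |r| ^ p) ≤ K * 1 := by
      have : b u = K * u.sum (fun _ r => |r| ^ p) := rfl
      rw [← this]
      linarith [hu1.2]
    exact le_of_mul_le_mul_left h5 hK0
  obtain ⟨x, hx1, hx2⟩ := h3 u hβ
  have hxb : StrongDual.toWeakDual x ∈ ball := by
    change WeakDual.toStrongDual (StrongDual.toWeakDual x) ∈ Metric.closedBall 0 Rad
    rw [StrongDual.toStrongDual_toWeakDual, mem_closedBall_zero_iff]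
    exact hx1
  have h7 : F top u ≤ Psi G (StrongDual.toWeakDual x) := FF_le h0 h1' hT hxb hx2
  have h8 : Psi G (StrongDual.toWeakDual x) ≤ S * Rad :=
    Psi_le_of h0 fun F f hf => (h1 x F f hf).trans (mul_le_mul_of_nonneg_left hx1 hS)
  linarith

end NoLq
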