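import Mathlib
import Pool.Agent.Work.MP_052a41_an_helper68.Core2

set_option autoImplicit false

/-! # The `C(K)` part for MP_052a41_an -/

namespace NoLq

open Filter Topology Set

variable {𝕜 : Type*} [RCLike 𝕜] {E : Type*} [NormedAddCommGroup E] [NormedSpace 𝕜 E]
  {K : Type*} [TopologicalSpace K] [CompactSpace K]

/-- The upper `q`-estimate gives a pointwise `p`-summability of the images in `C(K)`. -/
theorem pointwise_bound (A : E →L[𝕜] C(K, 𝕜)) (y : ℕ → E) {p q : ℝ} (hpq : p.HolderConjugate q)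
    {C : ℝ} (hC : 0 ≤ C)
    (hup : ∀ (s : Finset ℕ) (a : ℕ → 𝕜), ‖∑ n ∈ s, a n • y n‖ ≤
      C * (∑ n ∈ s, ‖a n‖ ^ q) ^ (1 / q)) (F : Finset ℕ) (s : K) :
    ∑ n ∈ F, ‖A (y n) s‖ ^ p ≤ (‖A‖ * C) ^ p := by
  obtain ⟨⟨g, hg1, hg2⟩, -⟩ := NNReal.isGreatest_Lp F (fun n => ‖A (y n) s‖₊) hpq
  choose θ hθ1 hθ2 using fun n => RCLike.exists_norm_eq_mul_self (A (y n) s)
  have hp0 : 0 < p := hpq.pos
  have hq0 : 0 < q := hpq.symm.pos
  have hg1' : ∑ n ∈ F, ((g n : ℝ)) ^ q ≤ 1 := by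
    have : ∑ n ∈ F, g n ^ q ≤ 1 := hg1
    exact_mod_cast this
  have hg2' : ∑ n ∈ F, ‖A (y n) s‖ * (g n : ℝ) = (∑ n ∈ F, ‖A (y n) s‖ ^ p) ^ (1 / p) := by
    have h := congrArg (fun t : NNReal => (t : ℝ)) hg2
    simpa using h
  have h1 : (A (∑ n ∈ F, (((g n : ℝ) : 𝕜) * θ n) • y n)) s =
      ((∑ n ∈ F, ‖A (y n) s‖ * (g n : ℝ) : ℝ) : 𝕜) := by
    rw [map_sum, ContinuousMap.sum_apply]
    push_cast
    refine Finset.sum_congr rfl fun n _ => ?_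
    rw [map_smul, ContinuousMap.smul_apply, smul_eq_mul, mul_assoc, ← hθ2 n, mul_comm]
  have h2 : ‖(A (∑ n ∈ F, (((g n : ℝ) : 𝕜) * θ n) • y n)) s‖ ≤ ‖A‖ * C := by
    refine (ContinuousMap.norm_coe_le_norm _ s).trans ((A.le_opNorm _).trans ?_)
    refine mul_le_mul_of_nonneg_left ((hup F _).trans ?_) (norm_nonneg _)
    have h3 : ∑ n ∈ F, ‖((g n : ℝ) : 𝕜) * θ n‖ ^ q = ∑ n ∈ F, (g n : ℝ) ^ q := by
      refine Finset.sum_congr rfl fun n _ => ?_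
      rw [norm_mul, hθ1 n, mul_one, RCLike.norm_ofReal, abs_of_nonneg (g n).coe_nonneg]
    rw [h3]
    have h4 : (∑ n ∈ F, (g n : ℝ) ^ q) ^ (1 / q) ≤ 1 := by
      refine Real.rpow_le_one (Finset.sum_nonneg fun n _ => by positivity) hg1' (by positivity)
    exact mul_le_of_le_one_right hC h4
  rw [h1, hg2', RCLike.norm_ofReal, abs_of_nonneg (by positivity)] at h2
  have h5 : ((∑ n ∈ F, ‖A (y n) s‖ ^ p) ^ (1 / p)) ^ p ≤ (‖A‖ * C) ^ p :=
    Real.rpow_le_rpow (by positivity) h2 hp0.le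
  rwa [← Real.rpow_mul (by positivity), one_div_mul_cancel hp0.ne', Real.rpow_one] at h5

/-- The truncation of a continuous function at height `τ`. -/
noncomputable def trunc (τ : ℝ) (hτ : 0 < τ) (f : C(K, 𝕜)) : C(K, 𝕜) :=
  ⟨fun s => (((τ / max τ ‖f s‖ : ℝ)) : 𝕜) * f s, by
    refine (RCLike.continuous_ofReal.comp (continuous_const.div ?_ ?_)).mul f.continuous
    · exact continuous_const.max f.continuous.norm
    · intro s
      exact (lt_max_of_lt_left hτ).ne'⟩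

theorem trunc_norm_le (τ : ℝ) (hτ : 0 < τ) (f : C(K, 𝕜)) : ‖trunc τ hτ f‖ ≤ τ := by
  rw [ContinuousMap.norm_le _ hτ.le]
  intro s
  change ‖(((τ / max τ ‖f s‖ : ℝ)) : 𝕜) * f s‖ ≤ τ
  have hm : 0 < max τ ‖f s‖ := lt_max_of_lt_left hτ
  rw [norm_mul, RCLike.norm_ofReal, abs_of_nonneg (by positivity), div_mul_eq_mul_div,
    div_le_iff₀ hm]
  exact mul_le_mul_of_nonneg_left (le_max_right _ _) hτ.le

omit [CompactSpace K] in
theorem sub_trunc_le (τ : ℝ) (hτ : 0 < τ) {p : ℝ} (hp : 1 < p) (f : C(K, 𝕜)) (s : K) :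
    ‖(((τ ^ (p - 1) : ℝ) : 𝕜) • (f - trunc τ hτ f)) s‖ ≤ ‖f s‖ ^ p := by
  change ‖((τ ^ (p - 1) : ℝ) : 𝕜) * (f s - (((τ / max τ ‖f s‖ : ℝ)) : 𝕜) * f s)‖ ≤ ‖f s‖ ^ p
  have hm : 0 < max τ ‖f s‖ := lt_max_of_lt_left hτ
  have hτp : 0 ≤ τ ^ (p - 1) := by positivity
  have h1 : f s - (((τ / max τ ‖f s‖ : ℝ)) : 𝕜) * f s =
      ((1 - τ / max τ ‖f s‖ : ℝ) : 𝕜) * f s := by
    push_cast; ring
  have h2 : 0 ≤ 1 - τ / max τ ‖f s‖ := by
    rw [sub_nonneg, div_le_one hm]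
    exact le_max_left _ _
  rw [h1, norm_mul, norm_mul, RCLike.norm_ofReal, RCLike.norm_ofReal, abs_of_nonneg hτp,
    abs_of_nonneg h2]
  rcases le_total ‖f s‖ τ with h | h
  · rw [max_eq_left h, div_self hτ.ne', sub_self, zero_mul, mul_zero]
    positivity
  · have hf0 : 0 < ‖f s‖ := hτ.trans_le h
    have h3 : 1 - τ / max τ ‖f s‖ ≤ 1 := by
      have : 0 ≤ τ / max τ ‖f s‖ := by positivity
      linarith
    have h4 : τ ^ (p - 1) ≤ ‖f s‖ ^ (p - 1) := Real.rpow_le_rpow hτ.le h (by linarith)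
    calc τ ^ (p - 1) * ((1 - τ / max τ ‖f s‖) * ‖f s‖)
        ≤ ‖f s‖ ^ (p - 1) * (1 * ‖f s‖) := by
          refine mul_le_mul h4 (mul_le_mul_of_nonneg_right h3 hf0.le) ?_ (by positivity)
          exact mul_nonneg h2 hf0.le
      _ = ‖f s‖ ^ p := by
          rw [one_mul, ← Real.rpow_add_one hf0.ne']
          congr 1
          ring

/-- The set of test vectors. -/
def GG (A : E →L[𝕜] C(K, 𝕜)) (B : C(K, 𝕜) →L[𝕜] E) (y : ℕ → E) (p : ℝ) (n : ℕ) : Set E :=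
  {v | ∃ f : C(K, 𝕜), (∀ s, ‖f s‖ ≤ ‖A (y n) s‖ ^ p) ∧ B f = v}

/-- Summability of the test functionals. -/
theorem GG_sum (A : E →L[𝕜] C(K, 𝕜)) (B : C(K, 𝕜) →L[𝕜] E) (y : ℕ → E) {p q : ℝ}
    (hpq : p.HolderConjugate q) {C : ℝ} (hC : 0 ≤ C)
    (hup : ∀ (s : Finset ℕ) (a : ℕ → 𝕜), ‖∑ n ∈ s, a n • y n‖ ≤
      C * (∑ n ∈ s, ‖a n‖ ^ q) ^ (1 / q))
    (x : StrongDual 𝕜 E) (F : Finset ℕ) (f : ℕ → E) (hf : ∀ n, f n ∈ GG A B y p n) :
    ∑ n ∈ F, ‖x (f n)‖ ≤ (‖B‖ * (‖A‖ * C) ^ p) * ‖x‖ := by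
  choose φ hφ1 hφ2 using hf
  choose θ hθ1 hθ2 using fun n => RCLike.exists_norm_eq_mul_self (x (f n))
  have h1 : x (B (∑ n ∈ F, θ n • φ n)) = ((∑ n ∈ F, ‖x (f n)‖ : ℝ) : 𝕜) := by
    rw [map_sum, map_sum]
    push_cast
    refine Finset.sum_congr rfl fun n _ => ?_
    rw [map_smul, map_smul, hφ2 n, smul_eq_mul, ← hθ2 n]
  have h2 : ‖∑ n ∈ F, θ n • φ n‖ ≤ (‖A‖ * C) ^ p := by
    rw [ContinuousMap.norm_le _ (by positivity)]
    intro s
    rw [ContinuousMap.sum_apply]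
    refine (norm_sum_le _ _).trans ?_
    refine le_trans (Finset.sum_le_sum fun n _ => ?_) (pointwise_bound A y hpq hC hup F s)
    rw [ContinuousMap.smul_apply, norm_smul, hθ1 n, one_mul]
    exact hφ1 n s
  have h3 : ‖x (B (∑ n ∈ F, θ n • φ n))‖ ≤ ‖x‖ * (‖B‖ * (‖A‖ * C) ^ p) := by
    refine (x.le_opNorm _).trans (mul_le_mul_of_nonneg_left ?_ (norm_nonneg _))
    exact (B.le_opNorm _).trans (mul_le_mul_of_nonneg_left h2 (norm_nonneg _))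
  rw [h1, RCLike.norm_ofReal, abs_of_nonneg (Finset.sum_nonneg fun n _ => norm_nonneg _)] at h3
  linarith

/-- Large gain of small perturbations. -/
theorem GG_gain (A : E →L[𝕜] C(K, 𝕜)) (B : C(K, 𝕜) →L[𝕜] E) (hBA : ∀ v, B (A v) = v)
    (y : ℕ → E) {p : ℝ} (hp : 1 < p) (L : ℝ) (hL : 0 < L) :
    ∃ ε : ℝ, 0 < ε ∧ ∀ c : ℝ, 0 < c → ∃ g : ℕ → E, (∀ n, g n ∈ GG A B y p n) ∧
      ∀ (z : StrongDual 𝕜 E) (n : ℕ), ‖z‖ ≤ ε → c ≤ ‖z (y n)‖ → L * c ^ p ≤ ‖z (g n)‖ := by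
  have hp1 : 0 < p - 1 := by linarith
  set η : ℝ := (2 * L) ^ (-(1 / (p - 1))) with hη
  have hη0 : 0 < η := by positivity
  have hηp : η ^ (p - 1) = (2 * L)⁻¹ := by
    rw [hη, ← Real.rpow_mul (by positivity)]
    have : -(1 / (p - 1)) * (p - 1) = -1 := by field_simp
    rw [this, Real.rpow_neg_one]
  set M : ℝ := ‖B‖ + 1 with hM
  have hM0 : 0 < M := by positivity
  refine ⟨η / (2 * M), by positivity, fun c hc => ?_⟩
  set τ : ℝ := c / η with hτ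
  have hτ0 : 0 < τ := by positivity
  refine ⟨fun n => B (((τ ^ (p - 1) : ℝ) : 𝕜) • (A (y n) - trunc τ hτ0 (A (y n)))),
    fun n => ⟨_, fun s => sub_trunc_le τ hτ0 hp (A (y n)) s, rfl⟩, fun z n hz hc' => ?_⟩
  have h1 : z (B (((τ ^ (p - 1) : ℝ) : 𝕜) • (A (y n) - trunc τ hτ0 (A (y n))))) =
      ((τ ^ (p - 1) : ℝ) : 𝕜) * (z (y n) - z (B (trunc τ hτ0 (A (y n))))) := by
    rw [map_smul, map_smul, map_sub, map_sub, hBA, smul_eq_mul]
  rw [h1, norm_mul, RCLike.norm_ofReal, abs_of_nonneg (by positivity)]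
  have h2 : ‖z (B (trunc τ hτ0 (A (y n))))‖ ≤ c / 2 := by
    have h3 : ‖B (trunc τ hτ0 (A (y n)))‖ ≤ M * τ := by
      refine (B.le_opNorm _).trans ?_
      refine mul_le_mul (by linarith) (trunc_norm_le _ _ _) (norm_nonneg _) hM0.le
    refine (z.le_opNorm _).trans ((mul_le_mul hz h3 (norm_nonneg _) (by positivity)).trans ?_)
    rw [hτ]
    apply le_of_eq
    field_simp
  have h4 : c / 2 ≤ ‖z (y n) - z (B (trunc τ hτ0 (A (y n))))‖ := by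
    have := norm_sub_norm_le (z (y n)) (z (B (trunc τ hτ0 (A (y n)))))
    linarith
  have h5 : L * c ^ p = τ ^ (p - 1) * (c / 2) := by
    rw [hτ, Real.div_rpow hc.le hη0.le, hηp]
    have : c ^ p = c ^ (p - 1) * c := by
      rw [← Real.rpow_add_one hc.ne']
      congr 1
      ring
    rw [this]
    field_simp
  rw [h5]
  exact mul_le_mul_of_nonneg_left h4 (by positivity)

/-- The dual `p`-estimate from the lower `q`-estimate (Hahn-Banach). -/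
theorem exists_functional (y : ℕ → E) {p q : ℝ} (hpq : p.HolderConjugate q) {c0 : ℝ}
    (hc0 : 0 ≤ c0)
    (hlow : ∀ (s : Finset ℕ) (a : ℕ → 𝕜), (∑ n ∈ s, ‖a n‖ ^ q) ^ (1 / q) ≤
      c0 * ‖∑ n ∈ s, a n • y n‖)
    (u : ℕ →₀ ℝ) (hu : u.sum (fun _ r => |r| ^ p) ≤ 1) :
    ∃ x : StrongDual 𝕜 E, ‖x‖ ≤ c0 ∧ ∀ n, x (y n) = ((u n : ℝ) : 𝕜) := by
  classical
  have hp0 : 0 < p := hpq.pos
  have hq0 : 0 < q := hpq.symm.pos
  set Φ : (ℕ →₀ 𝕜) →ₗ[𝕜] E := Finsupp.linearCombination 𝕜 y with hΦ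
  have hΦa : ∀ a : ℕ →₀ 𝕜, Φ a = ∑ n ∈ a.support, a n • y n := fun a => by
    rw [hΦ, Finsupp.linearCombination_apply, Finsupp.sum]
  have hinj : Function.Injective Φ := by
    rw [injective_iff_map_eq_zero]
    intro a ha
    have h1 := hlow a.support a
    rw [← hΦa, ha, norm_zero, mul_zero] at h1
    have h2 : ∑ n ∈ a.support, ‖a n‖ ^ q = 0 := by
      by_contra hne
      have h3 : 0 < ∑ n ∈ a.support, ‖a n‖ ^ q :=
        lt_of_le_of_ne (Finset.sum_nonneg fun n _ => by positivity) (Ne.symm hne)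
      have : 0 < (∑ n ∈ a.support, ‖a n‖ ^ q) ^ (1 / q) := by positivity
      linarith
    ext n
    by_contra hn
    have hn' : n ∈ a.support := Finsupp.mem_support_iff.2 hn
    have h3 := (Finset.sum_eq_zero_iff_of_nonneg (fun n _ => by positivity)).1 h2 n hn'
    have h4 : 0 < ‖a n‖ ^ q := by
      have : 0 < ‖a n‖ := norm_pos_iff.2 hn
      positivity
    linarith
  set e := LinearEquiv.ofInjective Φ hinj with he
  set ψ : (ℕ →₀ 𝕜) →ₗ[𝕜] 𝕜 := Finsupp.linearCombination 𝕜 (fun n => ((u n : ℝ) : 𝕜)) with hψ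
  have hbound : ∀ a : ℕ →₀ 𝕜, ‖ψ a‖ ≤ c0 * ‖Φ a‖ := by
    intro a
    have h1 : ψ a = ∑ n ∈ a.support, a n * ((u n : ℝ) : 𝕜) := by
      rw [hψ, Finsupp.linearCombination_apply, Finsupp.sum]
      rfl
    rw [h1, hΦa]
    have h2 : ‖∑ n ∈ a.support, a n * ((u n : ℝ) : 𝕜)‖ ≤ ∑ n ∈ a.support, ‖a n‖ * |u n| := by
      refine (norm_sum_le _ _).trans (le_of_eq (Finset.sum_congr rfl fun n _ => ?_))
      rw [norm_mul, RCLike.norm_ofReal]
    refine h2.trans ?_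
    refine (Real.inner_le_Lp_mul_Lq_of_nonneg a.support hpq.symm (fun n _ => norm_nonneg _)
      (fun n _ => abs_nonneg _)).trans ?_
    have h3 : (∑ n ∈ a.support, |u n| ^ p) ^ (1 / p) ≤ 1 := by
      refine Real.rpow_le_one (Finset.sum_nonneg fun n _ => by positivity) ?_ (by positivity)
      refine le_trans ?_ hu
      rw [Finsupp.sum]
      have h5 : ∑ n ∈ a.support, |u n| ^ p ≤ ∑ n ∈ a.support ∪ u.support, |u n| ^ p :=
        Finset.sum_le_sum_of_subset_of_nonneg Finset.subset_union_left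
          (fun n _ _ => by positivity)
      refine h5.trans (le_of_eq ?_)
      refine (Finset.sum_subset Finset.subset_union_right fun n _ hn => ?_).symm
      rw [Finsupp.notMem_support_iff.1 hn, abs_zero, Real.zero_rpow hp0.ne']
    have h4 := hlow a.support a
    calc (∑ n ∈ a.support, ‖a n‖ ^ q) ^ (1 / q) * (∑ n ∈ a.support, |u n| ^ p) ^ (1 / p)
        ≤ (c0 * ‖∑ n ∈ a.support, a n • y n‖) * 1 := by
          refine mul_le_mul h4 h3 (by positivity) (by positivity)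
      _ = _ := mul_one _
  set ρ : LinearMap.range Φ →ₗ[𝕜] 𝕜 := ψ ∘ₗ (e.symm : LinearMap.range Φ →ₗ[𝕜] (ℕ →₀ 𝕜)) with hρ
  have hρb : ∀ v : LinearMap.range Φ, ‖ρ v‖ ≤ c0 * ‖v‖ := by
    intro v
    have h1 := hbound (e.symm v)
    have h2 : Φ (e.symm v) = (v : E) := by
      have := e.apply_symm_apply v
      have h3 := congrArg Subtype.val this
      exact h3
    rw [h2] at h1
    exact h1
  obtain ⟨x, hx1, hx2⟩ := exists_extension_norm_eq (LinearMap.range Φ)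
    (LinearMap.mkContinuous ρ c0 hρb)
  refine ⟨x, ?_, fun n => ?_⟩
  · rw [hx2]
    exact LinearMap.mkContinuous_norm_le _ hc0 _
  · have h1 : Φ (Finsupp.single n 1) = y n := by
      rw [hΦ, Finsupp.linearCombination_single, one_smul]
    have h2 : y n ∈ LinearMap.range Φ := ⟨_, h1⟩
    have h3 := hx1 ⟨y n, h2⟩
    have h4 : e.symm ⟨y n, h2⟩ = Finsupp.single n 1 := by
      rw [LinearEquiv.symm_apply_eq]
      exact Subtype.ext h1.symm
    have h5 : (LinearMap.mkContinuous ρ c0 hρb) ⟨y n, h2⟩ = ((u n : ℝ) : 𝕜) := by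
      change ψ (e.symm ⟨y n, h2⟩) = _
      rw [h4, hψ, Finsupp.linearCombination_single, one_smul]
    rw [h5] at h3
    exact h3

/-- A factor `E` of `C(K)` containing a sequence equivalent to the basis of `ℓ_q`, `1 < q < ∞`,
has nonseparable dual. -/
theorem not_separable_of_factor (A : E →L[𝕜] C(K, 𝕜)) (B : C(K, 𝕜) →L[𝕜] E)
    (hBA : ∀ v, B (A v) = v) (y : ℕ → E) {p q : ℝ} (hpq : p.HolderConjugate q)
    {C c0 : ℝ} (hC : 0 ≤ C) (hc0 : 0 ≤ c0)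
    (hup : ∀ (s : Finset ℕ) (a : ℕ → 𝕜), ‖∑ n ∈ s, a n • y n‖ ≤
      C * (∑ n ∈ s, ‖a n‖ ^ q) ^ (1 / q))
    (hlow : ∀ (s : Finset ℕ) (a : ℕ → 𝕜), (∑ n ∈ s, ‖a n‖ ^ q) ^ (1 / q) ≤
      c0 * ‖∑ n ∈ s, a n • y n‖) :
    ¬ TopologicalSpace.SeparableSpace (StrongDual 𝕜 E) := by
  refine core y (GG A B y p) (‖B‖ * (‖A‖ * C) ^ p) c0 p hpq.lt (by positivity) hc0 ?_ ?_ ?_ ?_
  · exact fun n => ⟨0, fun s => by
      change ‖(0 : 𝕜)‖ ≤ _
      rw [norm_zero]; positivity, map_zero _⟩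
  · exact fun x F f hf => GG_sum A B y hpq hC hup x F f hf
  · exact fun L hL => GG_gain A B hBA y hpq.lt L hL
  · exact fun u hu => exists_functional y hpq hc0 hlow u hu

end NoLq
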