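import Mathlib
import Pool.Agent.Work.MP_052a41_an_helper68.CK

set_option autoImplicit false

/-! # Complemented subspaces of `C(K)` containing `ℓ_q` have nonseparable dual -/

namespace NoLq

open Filter Topology Set
open scoped ENNReal

variable {𝕜 : Type*} [RCLike 𝕜] {E : Type*} [NormedAddCommGroup E] [NormedSpace 𝕜 E]
  {K : Type*} [TopologicalSpace K] [CompactSpace K]

theorem not_separable_of_lp (A : E →L[𝕜] C(K, 𝕜)) (B : C(K, 𝕜) →L[𝕜] E)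
    (hBA : ∀ v, B (A v) = v) (q : ℝ≥0∞) [Fact (1 ≤ q)] (h1 : 1 < q) (h2 : q ≠ ⊤)
    (j : lp (fun _ : ℕ => 𝕜) q →L[𝕜] E) (c0 : ℝ) (hc0 : 0 ≤ c0) (hj : ∀ x, ‖x‖ ≤ c0 * ‖j x‖) :
    ¬ TopologicalSpace.SeparableSpace (StrongDual 𝕜 E) := by
  have hq1 : 1 < q.toReal := by
    have := (ENNReal.toReal_lt_toReal ENNReal.one_ne_top h2).2 h1
    simpa using this
  have hq0 : 0 < q.toReal := by linarith
  have hpq : (Real.conjExponent q.toReal).HolderConjugate q.toReal :=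
    (Real.HolderConjugate.conjExponent hq1).symm
  have hsum : ∀ (s : Finset ℕ) (a : ℕ → 𝕜),
      ∑ n ∈ s, a n • j (lp.single q n (1 : 𝕜)) = j (∑ n ∈ s, lp.single q n (a n)) := by
    intro s a
    rw [map_sum]
    refine Finset.sum_congr rfl fun n _ => ?_
    rw [← map_smul, ← lp.single_smul, smul_eq_mul, mul_one]
  have hnorm : ∀ (s : Finset ℕ) (a : ℕ → 𝕜),
      ‖∑ n ∈ s, (lp.single q n (a n) : lp (fun _ : ℕ => 𝕜) q)‖ =
        (∑ n ∈ s, ‖a n‖ ^ q.toReal) ^ (1 / q.toReal) := by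
    intro s a
    rw [← lp.norm_sum_single hq0 a s, ← Real.rpow_mul (norm_nonneg _),
      mul_one_div_cancel hq0.ne', Real.rpow_one]
  refine not_separable_of_factor A B hBA (fun n => j (lp.single q n (1 : 𝕜))) hpq
    (norm_nonneg j) hc0 ?_ ?_
  · intro s a
    rw [hsum, ← hnorm]
    exact j.le_opNorm _
  · intro s a
    rw [hsum, ← hnorm]
    exact hj _

theorem main (X : Submodule 𝕜 C(K, 𝕜)) (hX : X.ClosedComplemented) (q : ℝ≥0∞) [Fact (1 ≤ q)]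
    (h1 : 1 < q) (h2 : q ≠ ⊤) (Y : Submodule 𝕜 C(K, 𝕜)) (hYX : Y ≤ X)
    (e : Y ≃L[𝕜] lp (fun _ : ℕ => 𝕜) q) :
    ¬ TopologicalSpace.SeparableSpace (StrongDual 𝕜 X) := by
  obtain ⟨B, hB⟩ := hX
  set j : lp (fun _ : ℕ => 𝕜) q →L[𝕜] X :=
    ((Y.subtypeL.comp (e.symm : lp (fun _ : ℕ => 𝕜) q →L[𝕜] Y)).codRestrict X
      (fun x => hYX (e.symm x).2)) with hj
  refine not_separable_of_lp X.subtypeL B (fun v => hB v) q h1 h2 j
    ‖(e : Y →L[𝕜] lp (fun _ : ℕ => 𝕜) q)‖ (ContinuousLinearMap.opNorm_nonneg _) ?_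
  intro x
  have h3 : ‖j x‖ = ‖e.symm x‖ := rfl
  rw [h3]
  have h4 := (e : Y →L[𝕜] lp (fun _ : ℕ => 𝕜) q).le_opNorm (e.symm x)
  simpa using h4

end NoLq
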